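import Pool.Agent.Helper74.PM.Fix

/-!
# MP_158ebf_lc: NP has p-measure zero as soon as one strategy makes one fixed local profit

Definitions: `Pool/Agent/Helper74/PM/Defs.lean` and `Pool/Agent/NPC/Defs.lean` (NP).
-/

set_option autoImplicit false

namespace Pool.Agent.Results.MP_158ebf_lc.LocalProfit

open Pool.Agent.NPC Pool.Agent.Helper74.PM

/-- **A zero-one law for NP.** For a density function `d`, a string `w` and a real `α > d w` let
`K(d, w, α)` be the class of the languages `L` with `w ⊑ χ_L` such that `d (χ_L ↾ n) < α` for all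
`n ≥ |w|`. The following are equivalent.
1. NP has p-measure zero (that is, the answer to Q1 is negative).
2. NP ∩ `K(d, w, α)` has p-measure zero for all quasi-polynomial time computable `d`, all `w` and all
  `α > d w`.
3. NP ∩ `K(d, w, α)` has p-measure zero for some such `d`, `w`, `α`.
4. NP ∩ `K(d, w, α)` is empty for some such `d`, `w`, `α`: on each language of NP through `w` the
  strategy `d` reaches the level `α`.
5. Some quasi-polynomial time computable density function `d` is not constant and satisfies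
  `limsup d (χ_L ↾ n) ≥ d λ` for all `L` in NP: it is not permanently behind on any language of
  NP. -/
theorem result : List.TFAE [
    PNull {L | InNP L},
    ∀ (d : List Bool → ℝ) (w : List Bool) (α : ℝ), IsDensity d → QComp d → d w < α →
      PNull {L | InNP L ∧ pre L w.length = w ∧ ∀ n ≥ w.length, d (pre L n) < α},
    ∃ (d : List Bool → ℝ) (w : List Bool) (α : ℝ), IsDensity d ∧ QComp d ∧ d w < α ∧
      PNull {L | InNP L ∧ pre L w.length = w ∧ ∀ n ≥ w.length, d (pre L n) < α},
    ∃ (d : List Bool → ℝ) (w : List Bool) (α : ℝ), IsDensity d ∧ QComp d ∧ d w < α ∧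
      ∀ L, InNP L → pre L w.length = w → ∃ n ≥ w.length, α ≤ d (pre L n),
    ∃ d : List Bool → ℝ, IsDensity d ∧ QComp d ∧ (∃ w, d w ≠ d []) ∧
      ∀ L, InNP L → ∀ ε > 0, ∀ m, ∃ n ≥ m, d [] - ε ≤ d (pre L n)] := by
  have hne : NPc.Nonempty := by
    refine ⟨∅, fun _ => [false], 0, polyTime_of_poly (g := fun _ => false)
      (NPC.Poly.const false), fun x => ?_⟩
    simp
  tfae_have 1 → 2 := fun h d w α _ _ _ => h.mono fun L hL => hL.1
  tfae_have 2 → 3 := by
    intro h
    have hd : IsDensity (fun _ => (0 : ℝ)) := ⟨fun _ => le_rfl, fun _ => by norm_num⟩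
    have hz : QComp (fun _ => (0 : ℝ)) :=
      ⟨0, fun _ => (false, 0, []), NPC.Poly.const _, fun r w => by simp [dyad]⟩
    exact ⟨_, [], 1, hd, hz, by norm_num, h _ [] 1 hd hz (by norm_num)⟩
  tfae_have 3 → 1 := by
    rintro ⟨d, w, α, hd, hq, hα, h⟩
    exact (main1 finVar_NPc padClosed_NPc hd hq w α hα).1 h
  tfae_have 1 → 5 := fun h => (main2 finVar_NPc padClosed_NPc hne).1 h
  tfae_have 5 → 4 := by
    rintro ⟨d, hd, hq, ⟨w, hw⟩, hb⟩
    obtain ⟨v, hv⟩ := exists_lt hd hw
    refine ⟨d, v, (d v + d []) / 2, hd, hq, by linarith, fun L hL _ => ?_⟩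
    obtain ⟨n, hn1, hn2⟩ := hb L hL ((d [] - d v) / 2) (by linarith) v.length
    exact ⟨n, hn1, by linarith⟩
  tfae_have 4 → 3 := by
    rintro ⟨d, w, α, hd, hq, hα, h⟩
    refine ⟨d, w, α, hd, hq, hα, pnull_empty.mono ?_⟩
    rintro L ⟨hL, hL', hn⟩
    obtain ⟨n, hn1, hn2⟩ := h L hL hL'
    exact absurd (hn n hn1) (not_lt.2 hn2)
  tfae_finish

end Pool.Agent.Results.MP_158ebf_lc.LocalProfit
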