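import Pool.Agent.Z45.PN.Use

/-!
# p-measure zero with and without oracles

`PNull X` says that the class `X` of languages has p-measure zero, exactly as in the statement of
the problem (a polynomial-time computable system of density functions covers it), and
`PNullRel A X` says the same for polynomial-time computation with the oracle `A`; the class `X` is
the same in both cases (think of `NP` without oracle). If `X` has p-measure zero then it has
p-measure zero relative to all oracles. It is shown that conversely `X` has p-measure zero if it has
p-measure zero relative to all oracles outside a set which is null for a gauge `N - c log log N`:
such a small set of useless oracles is impossible unless it is empty. So the question whether `NP`
has p-measure zero is the question whether the set of the oracles that do not help polynomial-time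
martingales against `NP` is null for one of these gauges, equivalently whether it is empty.

Here `Null f Z` says that for every `δ > 0` the set `Z` of oracles can be covered by cylinders,
given by the first `N` bits of the oracle for various `N`, with `∑ 2 ^ (f N - N) ≤ δ`; the larger
the gauge `f` is, the fewer sets are null (for `f N = N` only the empty set is).

Proof. Consider the oracles which are empty with the possible exception of the free places
`0 ^ ℓ 1 ^ r`, where `ℓ` is a power of two and `r < c`. The number of free places among the first
`N` strings is `c log log N - O(1)`; so for random contents of the free places the oracle is not in
the null set with probability one, and hence one oracle algorithm `M` computes a null cover of `X`
for a set `G` of oracles of positive outer measure. Fix a finite table `τ` of contents of some free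
places for which the conditional measure of `G` is at least `3/4` of the supremum of these
conditional measures. For every oracle the approximations computed by `M` are transformed into an
honest betting strategy with exactly computed dyadic values, which makes no bet when the
approximations are inconsistent or when the capital is already at least one. The new density
function is twice the mean value of these strategies over all contents of the free places that
extend `τ`; its value for a string `w` is computed exactly by running through the polynomially
many extensions of `τ` to the free places of length polynomial in `|w|`. For a language `L` in `X`
the strategy of each oracle in `G` reaches capital one on some initial segment of `L`. By
continuity from below, for a large `n` this has happened on the first `n` bits for a subset of `G`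
that has at least `3/4` of the conditional measure of `G`; as no extension of `τ` increases this
conditional measure by more than the factor `4/3`, it has happened for at least `9/16` of the
extensions, so the mean value is more than `1/2`.

(helper45)
-/

set_option autoImplicit false

open Pool.Agent.NPC Pool.Agent.H620R2.Gauge Pool.Agent.Z45.PN

/-- A class of languages (for example `NP`) has p-measure zero if and only if the set of the oracles
relative to which it does not have p-measure zero is null for the gauge `N - c log log N`. -/
theorem Pool.Agent.Results.MP_158ebf_lc.OraclesForMartingales.result
    (X : Set (Set (List Bool))) (c : ℝ) :
    PNull X ↔ Null (fun N => N - c * Real.logb 2 (Real.logb 2 N)) {A : Oracle | ¬ PNullRel A X} := by
  constructor
  · intro h δ _
    refine ⟨∅, ?_, by simp⟩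
    intro A hA
    exact absurd (h.rel A) hA
  · exact pnull_of_null
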