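import Pool.Agent.Helper79K.TT.Main

set_option autoImplicit false

/-!
# O(log n) queries to NP can be null although slightly more queries give EXP

Polynomial time, `NP` and exponential time relative to an oracle are those of
`Pool.Agent.H620R2.Gauge.Defs` and `Pool.Agent.H620R2.Gauge2.Defs`; polynomial-time martingales
relative to an oracle, p-measure zero, p-dimension, truth-table reductions to `NP` and adaptive
queries to `NP` are those of `Pool.Agent.Helper79K.TT.Defs`.

The theorem: there is an oracle `A` relative to which
* the class of all languages which are polynomial-time truth-table reducible to `NP` (this is
  `P^NP` with `O(log n)` adaptive queries) has p-measure zero and p-dimension zero,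
* for every polynomial-time computable `h` with `h n / log n → ∞` (for instance
  `h n = (log n) ^ 2`, or `h n = n`), every language in exponential time is decided in polynomial
  time with at most `h n` adaptive queries to `NP`; in particular this class does not have
  p-measure zero.

So relative to `A` the classes `P^NP[h]`, `P^NP`, `PH`, `PSPACE`, `EXP` coincide, while
`P^NP[O(log n)]` is as small as possible: the answer to the question whether a class has p-measure
zero changes exactly at `O(log n)` queries to `NP`, and no relativizing proof derives
`μ_p (NP) ≠ 0`, or `μ_p (P_tt^NP) ≠ 0`, or that their p-dimension is positive, from
`μ_p (P^NP[(log n) ^ 2]) ≠ 0` or even from `EXP = P^NP[(log n) ^ 2]`.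

Proof. The oracle has a table and a hidden part. The hidden part codes infinitely many languages:
for every pair of an adversary (a machine which computes a martingale) and a function `h` a language
on which the martingale never wins (the bit of the string `x` is chosen, when the values of the
martingale for both continuations are known, so that the capital does not grow), and for every
algorithm with a polynomial `p` the language which it decides in `2 ^ p` rounds. The bit of `x` is
stored as the parity of a number (the threshold) with `h |x|` digits: it is the largest `c` such
that the hidden part contains `⟨x, c, y⟩` for some witness `y`, and it is found by binary search
with `h |x|` queries to `NP`.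

The table stores the values of the martingale of the null part. Each window of lengths is devoted
to one truth-table reduction and has a threshold `c < 2 ^ κ - 1`, where `κ` is a suitable multiple
of the logarithm of the length. Consider all nonadaptive queries of the reduction on the strings of
a long segment, and the largest number of positive answers which can be reached by hiding strings
with thresholds at most `c`. As `2 ^ κ` is large, this number is for some `c` almost the same as
the one for `c + 1`. At the beginning of the window the strings reaching the maximum for this `c`
are put into the oracle and witnesses for the positive answers are frozen; afterwards the hidden
bits of the window are chosen, with thresholds `c` and `c + 1`, and they add only few positive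
answers. Hence the characteristic sequence on the segment is known up to a small Hamming distance
at the beginning of the window, and the uniform distribution on this Hamming ball gives a
martingale which wins enough for dimension zero.
-/

namespace Pool.Agent.Results.MP_158ebf_lc.QueryThreshold

open Pool.Agent.NPC (PolyTime)
open Pool.Agent.H620R2.Gauge Pool.Agent.Helper79K.TT

/-- There is an oracle relative to which the class of all languages truth-table reducible to `NP`
has p-measure zero and p-dimension zero, while for every feasible `h` growing faster than the
logarithm all languages in exponential time are decided in polynomial time with `h n` adaptive
queries to `NP`, and the class of these languages does not have p-measure zero. -/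
theorem result : ∃ A : Oracle,
    (PNull A {L | PttNP A L} ∧ pDim A {L | PttNP A L} = 0) ∧
    ∀ h : ℕ → ℕ, (∃ E : List Bool → List Bool, PolyTime E ∧
        ∀ n, (E (List.replicate n true)).length = h n) →
      (∀ C, ∀ᶠ n in Filter.atTop, C * Nat.log 2 n ≤ h n) →
        (∀ L, IsEXP A L → PNPq A h L) ∧ ¬ PNull A {L | PNPq A h L} :=
  exists_oracle

end Pool.Agent.Results.MP_158ebf_lc.QueryThreshold
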