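import Pool.Agent.Helper37Q.Main

set_option autoImplicit false

/-!
# Oracles relative to which `NP` is not small but its part in exponential time has dimension zero

The machine model, `NP` relative to an oracle, gales, computability in polynomial time and the
polynomial-time dimension relative to an oracle are those of `Pool.Agent.Helper76.Dim.Defs`
(helper76); a martingale is a gale of index `1`. `DE K` is the class of the languages decided in
time `2 ^ (c (n + 1) ^ K)`, and `QComputable c` is computability in time `2 ^ (b (log n + 1) ^ c)`
(`Pool.Agent.Helper37Q.Defs`).

For every `K` there is an oracle `A` such that, for every `c`, `NP` relative to `A` contains a
language on which no martingale computable in time `2 ^ (b (log n + 1) ^ c)` relative to `A`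
succeeds (so that `NP` relative to `A` has neither p-measure zero nor p2-measure zero: it does not
have measure zero in exponential time), although the class of the languages which are in `NP` and in
`DE K` relative to `A` has p-dimension zero. For `K = 1`: from the hypothesis that `NP` does not
have p-measure zero, or that it does not have measure zero in `E₂`, one cannot derive by a
relativizing proof that `NP` does not have measure zero in `E`, or positive dimension in `E`.

Proof. The oracle has a hidden part, which codes random languages `R 0, R 1, …` together with random
witnesses (of length `n ^ k` for the strings of length `n` in `R k`), and a table, which stores the
values of gales. These are derived from a martingale, which is the sum over sparse scales `j` of the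
martingales of the conditional distributions of the language of a nondeterministic machine `N` on
the strings of length between `ar j` and `2 * ar j`, given the hidden part for all the strings with
witnesses of length less than `ar j ^ (K + 2)`. If the language is also in `DE K` then the
deterministic machine finds no longer witness, so its output is determined by the condition, and
by a conditional form of the lemma of Borel and Cantelli the agreement of the two machines has
conditional probability at least `2 ^ (-j - 1)` at almost all scales. On the other hand a machine
which bets on `R ((c + 1) (K + 2))` in time `2 ^ (b (log n + 1) ^ c)` sees only values of the table
which depend on the past of this language, and almost surely finds a witness for its future only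
finitely often; so by the inequality of Ville it does not win.
-/

namespace Pool.Agent.Results.MP_158ebf_lc.RandomButSmallInE

open Pool.Agent.Helper76.Dim Pool.Agent.Helper37Q

/-- For every `K` there is an oracle relative to which `NP` contains, for every quasipolynomial time
bound, a random language, although the class of the languages in `NP` which are decided in time
`2 ^ (c (n + 1) ^ K)` has p-dimension zero. -/
theorem result (K : ℕ) : ∃ A : Set (List Bool),
    (∀ c : ℕ, ∃ R ∈ NP A, ∀ d, IsGale 1 d → QComputable c A d → ¬ Succeeds d (chi R)) ∧
    dimP A (NP A ∩ DE K A) = 0 :=
  exists_oracle K

end Pool.Agent.Results.MP_158ebf_lc.RandomButSmallInE
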